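import Mathlib
import Pool.Agent.H510R2.Maier.MA14

set_option autoImplicit false

open Filter MeasureTheory ProbabilityTheory Topology

namespace Pool.Agent.Results.MP_f9960f_nt.BlockLimsup

/-- Cramér's random model: the independent events `A n` (`n` is a random prime) have probability
`1 / log n` for every `n ≥ 3`; the events `A 0`, `A 1`, `A 2` are arbitrary. -/
structure IsCramerModel {Ω : Type*} [MeasurableSpace Ω] (μ : Measure Ω) (A : ℕ → Set Ω) : Prop where
  meas : ∀ n, MeasurableSet (A n)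
  indep : iIndepSet A μ
  prob : ∀ n : ℕ, 3 ≤ n → μ.real (A n) = 1 / Real.log n

/-- The random primes `P_0 < P_1 < ...` of the outcome `ω`. -/
noncomputable def randPrime {Ω : Type*} (A : ℕ → Set Ω) (ω : Ω) : ℕ → ℕ :=
  Nat.nth (fun m => ω ∈ A m)

/-- `limsup_n (q_{n + 1 + ⌊κ log q_n⌋} - q_n) / (log q_n)^2`, a value in `[-∞, ∞]`. For `κ = 0` and
`q` the sequence of the primes this is the limsup of Cramér's conjecture. -/
noncomputable def blockLimsup (κ : ℝ) (q : ℕ → ℕ) : EReal :=
  limsup (fun n : ℕ => ((((q (n + 1 + ⌊κ * Real.log (q n)⌋₊) : ℝ) - q n) /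
    (Real.log (q n)) ^ 2 : ℝ) : EReal)) atTop

/-- **Cramér's prediction for the longest blocks of `κ log x` consecutive gaps fails for every
`κ ≥ 144`**: it is too small, almost surely. -/
theorem result {Ω : Type*} [MeasurableSpace Ω] {μ : Measure Ω} [IsProbabilityMeasure μ]
    {A : ℕ → Set Ω} (hA : IsCramerModel μ A) {κ : ℝ} (hκ : 144 ≤ κ) :
    ∀ᵐ ω ∂μ, blockLimsup κ (randPrime A ω) < blockLimsup κ (Nat.nth Nat.Prime) := by
  have hA' : Pool.Agent.H510R2.Maier.CramerModel μ A := ⟨hA.meas, hA.indep, hA.prob⟩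
  have hκ0 : 0 < κ := by linarith
  -- the primes
  have h1 : ((1.1228 * κ : ℝ) : EReal) ≤ blockLimsup κ (Nat.nth Nat.Prime) := by
    have hlong := Pool.Agent.H510R2.Maier.long_blocks κ (1.1228 * κ) hκ0 (by
      have := Pool.Agent.H510R2.Maier.two_exp_neg_gamma
      gcongr)
    unfold blockLimsup
    apply le_limsup_of_frequently_le'
    refine hlong.mono fun n hn => ?_
    have hp : (2 : ℝ) ≤ (Nat.nth Nat.Prime n : ℝ) := by
      exact_mod_cast (Nat.prime_nth_prime n).two_le
    have hlog : 0 < Real.log (Nat.nth Nat.Prime n : ℝ) := Real.log_pos (by linarith)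
    rw [EReal.coe_le_coe_iff, le_div_iff₀ (by positivity)]
    exact hn.le
  -- the model
  have h2 := Pool.Agent.H510R2.Maier.model_long hA' κ (1.1226 * κ) hκ0 (by linarith)
    (Pool.Agent.H510R2.Maier.rate_long κ hκ)
  filter_upwards [h2, Pool.Agent.H510R2.Maier.ae_infinite hA'] with ω hω hinf
  have h3 : blockLimsup κ (randPrime A ω) ≤ ((1.1226 * κ : ℝ) : EReal) := by
    unfold blockLimsup
    apply limsup_le_of_le
    · isBoundedDefault
    have htend : Tendsto (fun n => Nat.nth (fun m => ω ∈ A m) n) atTop atTop :=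
      (Nat.nth_strictMono hinf).tendsto_atTop
    filter_upwards [hω, htend.eventually_ge_atTop 2] with n hn hn2
    have hp : (2 : ℝ) ≤ (Nat.nth (fun m => ω ∈ A m) n : ℝ) := by exact_mod_cast hn2
    have hlog : 0 < Real.log (Nat.nth (fun m => ω ∈ A m) n : ℝ) := Real.log_pos (by linarith)
    rw [EReal.coe_le_coe_iff]
    unfold randPrime
    rw [div_le_iff₀ (by positivity)]
    exact hn
  refine lt_of_le_of_lt h3 (lt_of_lt_of_le ?_ h1)
  rw [EReal.coe_lt_coe_iff]
  linarith

end Pool.Agent.Results.MP_f9960f_nt.BlockLimsup
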