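import Mathlib
import Pool.Agent.H510R2.Maier.MB10
import Pool.Agent.H510R2.Maier.MB12

set_option autoImplicit false

open Filter MeasureTheory ProbabilityTheory Topology

namespace Pool.Agent.Results.MP_f9960f_nt.DenseBlocks

/-- Cramér's random model: the independent events `A n` (`n` is a random prime) have probability
`1 / log n` for every `n ≥ 3`; the events `A 0`, `A 1`, `A 2` are arbitrary. -/
structure IsCramerModel {Ω : Type*} [MeasurableSpace Ω] (μ : Measure Ω) (A : ℕ → Set Ω) : Prop where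
  meas : ∀ n, MeasurableSet (A n)
  indep : iIndepSet A μ
  prob : ∀ n : ℕ, 3 ≤ n → μ.real (A n) = 1 / Real.log n

/-- The number of elements of `q` in the interval `(n, n + c (log n)^2]`. -/
noncomputable def inWindow (q : Set ℕ) (c : ℝ) (n : ℕ) : ℕ :=
  {h : ℕ | 1 ≤ h ∧ (h : ℝ) ≤ c * (Real.log n) ^ 2 ∧ n + h ∈ q}.ncard

/-- The number of positive integers `n ≤ x` for which `(n, n + c (log n)^2]` contains at least
`κ log n` elements of `q`. -/
noncomputable def dense (q : Set ℕ) (κ c : ℝ) (x : ℕ) : ℕ :=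
  {n : ℕ | 1 ≤ n ∧ n ≤ x ∧ κ * Real.log n ≤ (inWindow q c n : ℝ)}.ncard

/-- The exponent of Cramér's model: `h(κ, c) = c - κ - κ log (c / κ)`. -/
noncomputable def expo (κ c : ℝ) : ℝ := c - κ - κ * Real.log (c / κ)

theorem inWindow_eq (q : Set ℕ) (c : ℝ) (n : ℕ) :
    inWindow q c n = Pool.Agent.H510R2.Maier.cntP (fun m => m ∈ q) n ⌊c * (Real.log n) ^ 2⌋₊ := by
  classical
  unfold inWindow Pool.Agent.H510R2.Maier.cntP
  rw [← Set.ncard_coe_finset]
  congr 1
  ext h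
  simp only [Set.mem_ofPred_eq, Finset.coe_filter, Finset.mem_Icc]
  constructor
  · rintro ⟨h1, h2, h3⟩
    exact ⟨⟨h1, (Nat.le_floor_iff' (by omega)).2 h2⟩, h3⟩
  · rintro ⟨⟨h1, h2⟩, h3⟩
    exact ⟨h1, (Nat.le_floor_iff' (by omega)).1 h2, h3⟩

theorem dense_eq (q : Set ℕ) (κ c : ℝ) (x : ℕ) :
    dense q κ c x = Pool.Agent.H510R2.Maier.G.NM (fun m => m ∈ q) κ c x := by
  classical
  unfold dense Pool.Agent.H510R2.Maier.G.NM
  rw [← Set.ncard_coe_finset]
  congr 1
  ext n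
  simp only [Set.mem_ofPred_eq, Finset.coe_filter, Finset.mem_Icc, inWindow_eq, and_assoc]

/-- **Dense blocks are far more frequent than in Cramér's model, for every `κ > 0`** (Maier's
constant at the scale `(log x)^2` improved to `1.07`). -/
theorem result {κ c η : ℝ} (hκ : 0 < κ) (hc : κ / 1.07 < c) (hc' : c < κ) (hη : 0 < η) :
    0 < expo κ c ∧
    (∀ᶠ x : ℕ in atTop, (x : ℝ) ^ (1 - η) ≤ dense {p | p.Prime} κ c x) ∧
    ∀ (Ω : Type) [MeasurableSpace Ω] (μ : Measure Ω) [IsProbabilityMeasure μ] (A : ℕ → Set Ω),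
      IsCramerModel μ A → ∀ᵐ ω ∂μ, ∀ᶠ x : ℕ in atTop,
        (dense {m | ω ∈ A m} κ c x : ℝ) ≤ (x : ℝ) ^ (max (1 - expo κ c) 0 + η) := by
  have hc0 : 0 < c := lt_trans (by positivity) hc
  refine ⟨Pool.Agent.H510R2.Maier.G.rate_pos hκ hc0 hc'.ne, ?_, ?_⟩
  · filter_upwards [Pool.Agent.H510R2.Maier.G.many_freq κ c η hκ hc hη] with x hx
    rw [dense_eq]
    exact hx
  · intro Ω _ μ _ A hA
    have hA' : Pool.Agent.H510R2.Maier.CramerModel μ A := ⟨hA.meas, hA.indep, hA.prob⟩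
    filter_upwards [Pool.Agent.H510R2.Maier.G.model_many hA' κ c η hc0 hc' hη] with ω hω
    filter_upwards [hω] with x hx
    rw [dense_eq]
    exact hx

end Pool.Agent.Results.MP_f9960f_nt.DenseBlocks
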