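import Mathlib
import Pool.Agent.H312R2.PG.C6
import Pool.Agent.H312R2.PG.A1
import Pool.Agent.H312R2.PG.A2b
import Pool.Agent.H318R2.Cr.High

/-!
# Frequency of the irregularities of primes in intervals of length `(log n)^B`, for every `B > 1`

For all `B > 1` and `ε > 0` there is `δ > 0` such that for all large `x`, each of
`π(n + (log n)^B) - π(n) ≥ (1 + δ) (log n)^(B-1)` and `π(n + (log n)^B) - π(n) ≤ (1 - δ) (log n)^(B-1)`
holds for at least `x exp (-(log x)^ε)` integers `n ≤ x`.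
-/

namespace Pool.Agent.Results.MP_f9960f_nt.MaierFrequency

open Finset

/-- the number of primes `p` with `n < p ≤ n + (log n)^B` -/
noncomputable def primesIn (B : ℝ) (n : ℕ) : ℕ :=
  #{p ∈ Ioc n (n + ⌊(Real.log n) ^ B⌋₊) | p.Prime}

theorem result (B : ℝ) (hB : 1 < B) (ε : ℝ) (hε : 0 < ε) :
    ∃ δ : ℝ, 0 < δ ∧ ∃ x₀ : ℕ, ∀ x : ℕ, x₀ ≤ x →
      x * Real.exp (-(Real.log x) ^ ε) ≤
        #{n ∈ Icc 1 x | (1 + δ) * (Real.log ((n : ℕ) : ℝ)) ^ (B - 1) ≤ (primesIn B n : ℝ)} ∧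
      x * Real.exp (-(Real.log x) ^ ε) ≤
        #{n ∈ Icc 1 x | (primesIn B n : ℝ) ≤ (1 - δ) * (Real.log ((n : ℕ) : ℝ)) ^ (B - 1)} := by
  classical
  obtain ⟨δ, hδ, x0, h⟩ := Pool.Agent.H312R2.PG.T1_of Pool.Agent.H312R2.PG.lmratio
    Pool.Agent.H312R2.PG.pntdiv Pool.Agent.H318R2.Cr.highInt B hB ε hε
  exact ⟨δ, hδ, x0, fun x hx => h x hx⟩

end Pool.Agent.Results.MP_f9960f_nt.MaierFrequency
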